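import Pool.Agent.H63.XRS.Conv

/-!
# Every convex body in Euclidean 3-space is verified by two X-rays

The answer to Q1 in full: yes for two X-rays (hence for three, and for every number `m ≥ 2`).  The
definitions are in `Pool.Agent.H63.XRS.Defs`.
-/

open XRS

namespace Pool.Agent.Results.MP_5df5df_gt.AllBodiesTwoXrays

/-- Every convex body `K` in a Euclidean space `E` of dimension three can be verified by two X-rays
(in two linearly independent directions), and so by `m` X-rays for every `m ≥ 2`. -/
theorem result (E : Type) [NormedAddCommGroup E] [InnerProductSpace ℝ E]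
    (hE : Module.finrank ℝ E = 3) (K : Set E) (hK : IsConvexBody K) :
    (∃ u v : E, ‖u‖ = 1 ∧ ‖v‖ = 1 ∧ LinearIndependent ℝ ![u, v] ∧ Verifies ![u, v] K) ∧
    ∀ m : ℕ, 2 ≤ m → ∃ u : Fin m → E, (∀ i, ‖u i‖ = 1) ∧ Verifies u K :=
  allBodies E hE K hK

end Pool.Agent.Results.MP_5df5df_gt.AllBodiesTwoXrays
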