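import Pool.Agent.H63.XRS.Conv

/-!
# Convex bodies in Euclidean 3-space cannot be successively determined by two X-rays

The definitions are in `Pool.Agent.H63.XRS.Defs`.
-/

open XRS
open scoped ENNReal

namespace Pool.Agent.Results.MP_5df5df_gt.NoTwoSuccessive

/-- Whatever the first direction `u₁` in a Euclidean space `E` of dimension three, and whatever the
rule `s` which chooses the second direction from the first X-ray, there are two different convex
bodies (in fact two ellipsoids centred at the origin) with the same first X-ray and the same X-ray in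
the second direction chosen by the rule. -/
theorem result (E : Type) [NormedAddCommGroup E] [InnerProductSpace ℝ E]
    (hE : Module.finrank ℝ E = 3) (u₁ : E) (hu₁ : ‖u₁‖ = 1) (s : (E → ℝ≥0∞) → E)
    (hs : ∀ f, ‖s f‖ = 1) :
    ∃ K K' : Set E, IsConvexBody K ∧ IsConvexBody K' ∧ IsEllipsoid K ∧ IsEllipsoid K' ∧
      K' ≠ K ∧ xray u₁ K' = xray u₁ K ∧
      xray (s (xray u₁ K)) K' = xray (s (xray u₁ K)) K :=
  noTwo E hE u₁ hu₁ s hs

end Pool.Agent.Results.MP_5df5df_gt.NoTwoSuccessive
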