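import Pool.Agent.H63.XRS.Conv

/-!
# Every convex body in Euclidean 3-space is verified by three X-rays in a prescribed plane

The definitions are in `Pool.Agent.H63.XRS.Defs`.
-/

open XRS

namespace Pool.Agent.Results.MP_5df5df_gt.ThreeXrays

/-- Every convex body `K` in a Euclidean space `E` of dimension three can be verified by three
X-rays. Moreover the three directions can be taken orthogonal to any given direction `n` and
arbitrarily close to any given direction `w` orthogonal to `n`. -/
theorem result (E : Type) [NormedAddCommGroup E] [InnerProductSpace ℝ E]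
    (hE : Module.finrank ℝ E = 3) (K : Set E) (hK : IsConvexBody K) :
    (∃ u : Fin 3 → E, (∀ i, ‖u i‖ = 1) ∧ Verifies u K) ∧
    ∀ n w : E, ‖n‖ = 1 → ‖w‖ = 1 → inner ℝ n w = 0 → ∀ ε > 0,
      ∃ u : Fin 3 → E, (∀ i, ‖u i‖ = 1 ∧ inner ℝ n (u i) = 0 ∧ ‖u i - w‖ < ε) ∧
        Verifies u K :=
  three E hE K hK

end Pool.Agent.Results.MP_5df5df_gt.ThreeXrays
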